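import Pool.Agent.Helper42.QD.Stmts

/-!
Module FP2: mean squares of the twisted traces for `b = 0`.
-/

namespace Pool.Agent.Helper42.QD

open Finset

/-- `om` agrees on elements of equal norm -/
theorem fp2_om {E : Type} [Field E] [Fintype E] [DecidableEq E] (c : FD E)
    (h1 : ∀ x, c.om (tu c.tau x) = c.om x)
    (h2 : ∀ y : Eˣ, y * tu c.tau y = 1 → ∃ e : Eˣ, y = e * (tu c.tau e)⁻¹) (y y' : Eˣ)
    (h : y * tu c.tau y = y' * tu c.tau y') : c.om y = c.om y' := by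
  have h3 : (y * y'⁻¹) * tu c.tau (y * y'⁻¹) = 1 := by
    rw [map_mul, map_inv]
    calc y * y'⁻¹ * (tu c.tau y * (tu c.tau y')⁻¹)
        = (y * tu c.tau y) * (y' * tu c.tau y')⁻¹ := by
          rw [mul_inv, mul_mul_mul_comm]
      _ = 1 := by rw [h, mul_inv_cancel]
  obtain ⟨e, he⟩ := h2 _ h3
  have h4 : c.om (y * y'⁻¹) = 1 := by
    rw [he, map_mul, map_inv, h1, mul_inv_cancel]
  rw [map_mul, map_inv] at h4
  exact mul_inv_eq_one.1 h4

/-- the norm is fixed -/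
theorem fp2_fix {E : Type} [Field E] [Fintype E] [DecidableEq E] (c : FD E) (y : Eˣ) :
    tu c.tau (y * tu c.tau y) = y * tu c.tau y := by
  have h : tu c.tau (tu c.tau y) = y := by
    ext
    exact c.tau2 y
  rw [map_mul, h, mul_comm]

theorem st_FP2 : ST_FP2 := by
  intro E _ _ _ c j a hj h1 hn hcard h2
  have e1 : ∀ t : Eˣ, TT c j 0 t = ∑ y : Eˣ, j (y * tu c.tau y * t) * ((c.om y : ℂ))⁻¹ := by
    intro t
    unfold TT
    refine Finset.sum_congr rfl fun y _ => ?_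
    rw [mul_zero, AddChar.map_zero_eq_one, one_mul]
  have e2 : ∀ t : Eˣ, (((‖TT c j 0 t‖ ^ 2 : ℝ)) : ℂ) = ∑ y : Eˣ, ∑ y' : Eˣ,
      ((c.om y : ℂ))⁻¹ * (starRingEnd ℂ) ((c.om y' : ℂ))⁻¹ *
        (j (y * tu c.tau y * t) * (starRingEnd ℂ) (j (y' * tu c.tau y' * t))) := by
    intro t
    rw [Complex.ofReal_pow, ← Complex.mul_conj', e1 t, map_sum, Finset.sum_mul_sum]
    refine Finset.sum_congr rfl fun y _ => Finset.sum_congr rfl fun y' _ => ?_
    rw [map_mul]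
    ring
  have e3 : (∑ t : Eˣ, (((‖TT c j 0 t‖ ^ 2 : ℝ)) : ℂ)) = ∑ y : Eˣ, ∑ y' : Eˣ,
      if y' * tu c.tau y' = y * tu c.tau y then (1 : ℂ) else 0 := by
    rw [Finset.sum_congr rfl fun t _ => e2 t, Finset.sum_comm]
    refine Finset.sum_congr rfl fun y _ => ?_
    rw [Finset.sum_comm]
    refine Finset.sum_congr rfl fun y' _ => ?_
    rw [← Finset.mul_sum, hj]
    by_cases h : y * tu c.tau y = y' * tu c.tau y'
    · rw [if_pos h, if_pos h.symm, fp2_om c h1 h2 y y' h, mul_one, Complex.mul_conj', norm_inv,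
        hn y']
      simp
    · rw [if_neg h, if_neg (fun h' => h h'.symm), mul_zero]
  have e4 : ∀ y : Eˣ, (∑ y' : Eˣ, if y' * tu c.tau y' = y * tu c.tau y then (1 : ℂ) else 0) =
      (a : ℂ) + 2 := by
    intro y
    rw [← Finset.sum_filter, Finset.sum_const, hcard _ (fp2_fix c y), nsmul_eq_mul, mul_one]
    push_cast
    ring
  have e5 : ((∑ t : Eˣ, ‖TT c j 0 t‖ ^ 2 : ℝ) : ℂ) = (((Fintype.card Eˣ : ℝ) * (a + 2) : ℝ) : ℂ) := by
    rw [Complex.ofReal_sum, e3, Finset.sum_congr rfl fun y _ => e4 y, Finset.sum_const,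
      Finset.card_univ, nsmul_eq_mul]
    push_cast
    ring
  exact_mod_cast e5

end Pool.Agent.Helper42.QD
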